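import Pool.Agent.H82.NTC.Stmts2

/-!
# Board `ntc`, row ACD: at most eight before corners for every node
-/

set_option autoImplicit false

namespace Pool.NTC

open Pool.NET

namespace H40ACD

/-- the code of a kind -/
def cd : Ke → Fin 8
  | Ke.NW => 0
  | Ke.SE => 1
  | Ke.J1 => 2
  | Ke.J3 => 3
  | Ke.R => 4
  | Ke.J2 => 4
  | Ke.L => 5
  | Ke.J4 => 5
  | Ke.T => 6
  | Ke.B => 7

theorem mem (N : Set Nd) (h u : Nd → Prop) (v : Nd) (k : Ke) (H : OK2 N h u (v, k)) : v ∈ N := by
  cases k <;> simp only [OK2] at H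
  all_goals first | exact H | exact H.1

theorem inj (N : Set Nd) (h u : Nd → Prop) (v : Nd) (k k' : Ke) (H : OK2 N h u (v, k))
    (H' : OK2 N h u (v, k')) (e : cd k = cd k') : k = k' := by
  cases k <;> cases k' <;> simp only [OK2] at H H' <;>
    first | rfl | (exact absurd e (by decide)) | (exact absurd H'.2 H.2) | (exact absurd H.2 H'.2)

end H40ACD

open H40ACD

theorem acd_thm : ACD_S := by
  intro P _ N h u hfin
  have hf : ∀ z, Finite (N z) := fun z => (hfin z).to_subtype
  have hf2 : ∀ z, Finite (N z × Fin 8) := fun z => inferInstance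
  let φ : {a : P × (Nd × Ke) // OK2 (N a.1) (h a.1) u a.2} → Σ z : P, (N z × Fin 8) := fun a =>
    ⟨a.1.1, ⟨a.1.2.1, mem _ _ _ _ _ a.2⟩, cd a.1.2.2⟩
  have hφ : Function.Injective φ := by
    rintro ⟨⟨z, v, k⟩, H⟩ ⟨⟨z', v', k'⟩, H'⟩ e
    have e1 : z = z' := congrArg Sigma.fst e
    subst e1
    have e2 := eq_of_heq (Sigma.mk.inj e).2
    have e3 : v = v' := congrArg (fun x : N z × Fin 8 => x.1.1) e2
    have e4 : cd k = cd k' := congrArg (fun x : N z × Fin 8 => x.2) e2
    subst e3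
    have e5 : k = k' := inj _ _ _ _ _ _ H H' e4
    subst e5
    rfl
  refine (Nat.card_le_card_of_injective φ hφ).trans (le_of_eq ?_)
  rw [Nat.card_sigma, Finset.mul_sum]
  refine Finset.sum_congr rfl fun z _ => ?_
  rw [Nat.card_prod, Nat.card_coe_set_eq, Nat.card_eq_fintype_card, Fintype.card_fin, mul_comm]

end Pool.NTC
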